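import Pool.Agent.TH665.GP.T1

/-! Second moments in blocks. -/

set_option autoImplicit false

open Finset

namespace Pool.Agent.L0h76.WP

open Pool.Agent.H197R2.PG (PI)
open Pool.Agent.TH665.GP (TT mem_TT)

lemma fib (Q : Finset ℕ) (F G : ℕ → ℕ) (S : Finset ℕ) (hF : ∀ q ∈ Q, F q ∈ S) :
    ((Q ×ˢ Q).filter (fun z => F z.1 = G z.2)).card =
      ∑ b ∈ S, (Q.filter (fun q => F q = b)).card * (Q.filter (fun q => G q = b)).card := by
  rw [Finset.card_eq_sum_card_fiberwise (f := fun z : ℕ × ℕ => F z.1) (t := S)]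
  · apply Finset.sum_congr rfl
    intro b _
    rw [← Finset.card_product]
    congr 1
    ext z
    simp only [mem_filter, mem_product]
    constructor
    · rintro ⟨⟨⟨h1, h2⟩, h3⟩, h4⟩
      exact ⟨⟨h1, h4⟩, h2, by rw [← h3, h4]⟩
    · rintro ⟨⟨h1, h2⟩, h3, h4⟩
      exact ⟨⟨⟨h1, h3⟩, by rw [h2, h4]⟩, h2⟩
  · intro z hz
    rw [Finset.mem_coe, mem_filter, mem_product] at hz
    exact Finset.mem_coe.2 (hF _ hz.1.1)

lemma two_le (Q : Finset ℕ) (F G : ℕ → ℕ) :
    2 * ((Q ×ˢ Q).filter (fun z => F z.1 = G z.2)).card ≤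
      ((Q ×ˢ Q).filter (fun z => F z.1 = F z.2)).card +
      ((Q ×ˢ Q).filter (fun z => G z.1 = G z.2)).card := by
  have hF : ∀ q ∈ Q, F q ∈ Q.image F ∪ Q.image G := fun q hq =>
    mem_union_left _ (mem_image_of_mem _ hq)
  have hG : ∀ q ∈ Q, G q ∈ Q.image F ∪ Q.image G := fun q hq =>
    mem_union_right _ (mem_image_of_mem _ hq)
  rw [fib Q F G _ hF, fib Q F F _ hF, fib Q G G _ hG, Finset.mul_sum, ← Finset.sum_add_distrib]
  apply Finset.sum_le_sum
  intro b _
  generalize (Q.filter (fun q => F q = b)).card = α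
  generalize (Q.filter (fun q => G q = b)).card = β
  zify
  nlinarith [sq_nonneg ((α : ℤ) - β)]

lemma block_close {w s t : ℕ} (hw : 0 < w) (h : s / w = t / w) : s ≤ t + w ∧ t ≤ s + w := by
  have e1 := Nat.div_add_mod s w
  have e2 := Nat.div_add_mod t w
  have e3 := Nat.mod_lt s hw
  have e4 := Nat.mod_lt t hw
  rw [← h] at e2
  generalize w * (s / w) = r at e1 e2
  omega

/-- pairs of pairs with sums in the same block -/
lemma en_le (A Q : Finset ℕ) (w Y : ℕ) (hw : 0 < w) (hQ : ∀ q ∈ Q, q ≤ Y) :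
    (((A ×ˢ Q) ×ˢ (A ×ˢ Q)).filter (fun z : (ℕ × ℕ) × (ℕ × ℕ) =>
      (z.1.1 + z.1.2) / w = (z.2.1 + z.2.2) / w)).card ≤
    ((A ×ˢ A).filter (fun z => z.1 ≤ z.2 + (Y + w) ∧ z.2 ≤ z.1 + (Y + w))).card *
      ((Q ×ˢ Q).filter (fun z => z.1 ≤ z.2 + w ∧ z.2 ≤ z.1 + w)).card := by
  rw [Finset.card_eq_sum_card_fiberwise (f := fun z : (ℕ × ℕ) × (ℕ × ℕ) => (z.1.1, z.2.1))
    (t := (A ×ˢ A).filter (fun z => z.1 ≤ z.2 + (Y + w) ∧ z.2 ≤ z.1 + (Y + w)))]
  · rw [← smul_eq_mul]
    apply Finset.sum_le_card_nsmul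
    rintro ⟨u, u'⟩ _
    have h1 : ((((A ×ˢ Q) ×ˢ (A ×ˢ Q)).filter (fun z : (ℕ × ℕ) × (ℕ × ℕ) =>
        (z.1.1 + z.1.2) / w = (z.2.1 + z.2.2) / w)).filter
          (fun z => (z.1.1, z.2.1) = (u, u'))).card ≤
        ((Q ×ˢ Q).filter (fun z => (u + z.1) / w = (u' + z.2) / w)).card := by
      apply Finset.card_le_card_of_injOn (fun z => (z.1.2, z.2.2))
      · intro z hz
        rw [Finset.mem_coe, mem_filter, mem_filter, mem_product, mem_product, mem_product,
          Prod.mk.injEq] at hz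
        obtain ⟨⟨⟨⟨_, g1⟩, _, g2⟩, g3⟩, g4, g5⟩ := hz
        rw [Finset.mem_coe, mem_filter, mem_product]
        refine ⟨⟨g1, g2⟩, ?_⟩
        rw [← g4, ← g5]
        exact g3
      · intro z hz z' hz' h
        rw [Finset.mem_coe, mem_filter, Prod.mk.injEq] at hz hz'
        simp only [Prod.mk.injEq] at h
        exact Prod.ext (Prod.ext (hz.2.1.trans hz'.2.1.symm) h.1)
          (Prod.ext (hz.2.2.trans hz'.2.2.symm) h.2)
    refine h1.trans ?_
    have h2 := two_le Q (fun q => (u + q) / w) (fun q => (u' + q) / w)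
    have h3 : ∀ c : ℕ, ((Q ×ˢ Q).filter (fun z => (c + z.1) / w = (c + z.2) / w)).card ≤
        ((Q ×ˢ Q).filter (fun z => z.1 ≤ z.2 + w ∧ z.2 ≤ z.1 + w)).card := by
      intro c
      apply Finset.card_le_card
      intro z hz
      rw [mem_filter] at hz ⊢
      have := block_close hw hz.2
      exact ⟨hz.1, by omega, by omega⟩
    have h4 := h3 u
    have h5 := h3 u'
    omega
  · intro z hz
    rw [Finset.mem_coe, mem_filter, mem_product, mem_product, mem_product] at hz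
    obtain ⟨⟨⟨g1, g2⟩, g3, g4⟩, g5⟩ := hz
    have h1 := block_close hw g5
    have h2 := hQ _ g2
    have h3 := hQ _ g4
    rw [Finset.mem_coe, mem_filter, mem_product]
    exact ⟨⟨g1, g3⟩, by simp only; omega, by simp only; omega⟩

/-- close pairs of iterated primes -/
lemma close_le (a x L : ℕ) (A : Finset ℕ) (hA : ∀ p ∈ A, p < x ∧ PI a p) :
    ((A ×ˢ A).filter (fun z => z.1 ≤ z.2 + L ∧ z.2 ≤ z.1 + L)).card ≤
      A.card + 2 * (TT a x L).card := by
  classical
  set W := (A ×ˢ A).filter (fun z : ℕ × ℕ => z.1 ≤ z.2 + L ∧ z.2 ≤ z.1 + L) with hW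
  have hmem : ∀ z, z ∈ W ↔ (z.1 ∈ A ∧ z.2 ∈ A) ∧ z.1 ≤ z.2 + L ∧ z.2 ≤ z.1 + L := by
    intro z
    rw [hW, mem_filter, mem_product]
  have hcov : W ⊆ W.filter (fun z => z.1 = z.2) ∪
      (W.filter (fun z => z.1 < z.2) ∪ W.filter (fun z => z.2 < z.1)) := by
    intro z hz
    rcases lt_trichotomy z.1 z.2 with h | h | h
    · exact mem_union_right _ (mem_union_left _ (mem_filter.mpr ⟨hz, h⟩))
    · exact mem_union_left _ (mem_filter.mpr ⟨hz, h⟩)
    · exact mem_union_right _ (mem_union_right _ (mem_filter.mpr ⟨hz, h⟩))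
  have h0 : (W.filter (fun z => z.1 = z.2)).card ≤ A.card := by
    apply Finset.card_le_card_of_injOn (fun z => z.1)
    · intro z hz
      rw [Finset.mem_coe, mem_filter, hmem] at hz
      exact hz.1.1.1
    · intro z hz z' hz' h
      rw [Finset.mem_coe, mem_filter] at hz hz'
      simp only at h
      exact Prod.ext h (by rw [← hz.2, ← hz'.2]; exact h)
  have h1 : (W.filter (fun z => z.1 < z.2)).card ≤ (TT a x L).card := by
    apply Finset.card_le_card
    intro z hz
    rw [mem_filter, hmem] at hz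
    obtain ⟨⟨⟨g1, g2⟩, g3, g4⟩, g5⟩ := hz
    rw [mem_TT]
    exact ⟨(hA _ g1).1, g5, g4, (hA _ g1).2, (hA _ g2).2⟩
  have h2 : (W.filter (fun z => z.2 < z.1)).card ≤ (TT a x L).card := by
    apply Finset.card_le_card_of_injOn (fun z => (z.2, z.1))
    · intro z hz
      rw [Finset.mem_coe, mem_filter, hmem] at hz
      obtain ⟨⟨⟨g1, g2⟩, g3, g4⟩, g5⟩ := hz
      rw [Finset.mem_coe, mem_TT]
      exact ⟨(hA _ g2).1, g5, g3, (hA _ g2).2, (hA _ g1).2⟩
    · intro z _ z' _ h
      simp only [Prod.mk.injEq] at h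
      exact Prod.ext h.2 h.1
  have h3 := (Finset.card_le_card hcov).trans ((Finset.card_union_le _ _).trans
    (Nat.add_le_add_left (Finset.card_union_le _ _) _))
  omega

/-- most pairs have popular sums -/
lemma popular (Z : Finset (ℕ × ℕ)) (M : ℕ) (hM : ∀ z ∈ Z, z.1 + z.2 < M) (hM0 : 0 < M) :
    (Z.card : ℝ) / 2 ≤ ((Z.filter (fun z => (Z.card : ℝ) / (2 * M) ≤
      ((Z.filter (fun z' => z'.1 + z'.2 = z.1 + z.2)).card : ℝ))).card : ℝ) := by
  classical
  have hM0r : (0 : ℝ) < M := by exact_mod_cast hM0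
  set P : ℕ × ℕ → Prop := fun z => (Z.card : ℝ) / (2 * M) ≤
      ((Z.filter (fun z' => z'.1 + z'.2 = z.1 + z.2)).card : ℝ) with hP
  have h1 : (Z.filter P).card + (Z.filter (fun z => ¬ P z)).card = Z.card :=
    Finset.card_filter_add_card_filter_not P
  have h2 : ((Z.filter (fun z => ¬ P z)).card : ℝ) ≤ Z.card / 2 := by
    rw [Finset.card_eq_sum_card_fiberwise (f := fun z : ℕ × ℕ => z.1 + z.2) (t := range M)]
    · push_cast
      have h3 : ∀ N ∈ range M, ((((Z.filter (fun z => ¬ P z)).filter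
          (fun z => z.1 + z.2 = N)).card : ℕ) : ℝ) ≤ (Z.card : ℝ) / (2 * M) := by
        intro N _
        rcases ((Z.filter (fun z => ¬ P z)).filter (fun z => z.1 + z.2 = N)).eq_empty_or_nonempty
          with h0 | ⟨z, hz⟩
        · rw [h0, Finset.card_empty, Nat.cast_zero]
          positivity
        · rw [mem_filter, mem_filter] at hz
          obtain ⟨⟨g1, g2⟩, g3⟩ := hz
          simp only [hP, not_le] at g2
          refine le_trans ?_ g2.le
          rw [g3]
          apply Nat.cast_le.2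
          apply Finset.card_le_card
          intro z' hz'
          rw [mem_filter, mem_filter] at hz'
          rw [mem_filter]
          exact ⟨hz'.1.1, hz'.2⟩
      refine (Finset.sum_le_card_nsmul _ _ _ h3).trans (le_of_eq ?_)
      rw [Finset.card_range, nsmul_eq_mul]
      field_simp
    · intro z hz
      rw [Finset.mem_coe, mem_filter] at hz
      rw [Finset.mem_coe, mem_range]
      exact hM z hz.1
  have h3 : ((Z.filter P).card : ℝ) + (Z.filter (fun z => ¬ P z)).card = Z.card := by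
    exact_mod_cast h1
  linarith

end Pool.Agent.L0h76.WP
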