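import Pool.Agent.L0h76.WP.Comb
import Pool.Agent.TH665.GP.F2

/-! The counting core. -/

set_option autoImplicit false

open Finset Filter Topology

namespace Pool.Agent.L0h76.WP

open Pool.Agent.H197R2.PG (PI)
open Pool.Agent.TH665.GP (TT mem_TT TT_le density3 energy PI_prime ev_pow ev_log_ge)

/-- the algebraic end of the argument -/
lemma finish {z h x Y v P R T1 T2 E c0 K1 K2 : ℝ} (hx : 0 < x) (hY : 0 < Y)
    (hP : 0 < P) (hR : 0 < R) (hK1 : 0 < K1) (hK2 : 0 < K2) (hc0 : 0 < c0)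
    (hh : 0 ≤ h) (hT2 : 0 ≤ T2)
    (hz : c0 * x * Y ≤ z * P * R) (hz2 : (z / 2) ^ 2 ≤ h * E) (hE : E ≤ T1 * T2)
    (hT1' : T1 ≤ K1 * Y * x / P ^ 2) (hT2' : T2 ≤ K2 * (2 * v) * Y / R ^ 2) :
    c0 ^ 2 / (8 * K1 * K2) * x ≤ v * h := by
  have h1 : (c0 * x * Y) ^ 2 ≤ (z * P * R) ^ 2 := by gcongr
  have h2 : (z * P * R) ^ 2 = 4 * (z / 2) ^ 2 * (P ^ 2 * R ^ 2) := by ring
  have h3 : (z / 2) ^ 2 ≤ h * ((K1 * Y * x / P ^ 2) * (K2 * (2 * v) * Y / R ^ 2)) := by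
    refine hz2.trans (mul_le_mul_of_nonneg_left (hE.trans ?_) hh)
    exact mul_le_mul hT1' hT2' hT2 (by positivity)
  have h4 : (c0 * x * Y) ^ 2 ≤
      4 * (h * ((K1 * Y * x / P ^ 2) * (K2 * (2 * v) * Y / R ^ 2))) * (P ^ 2 * R ^ 2) := by
    rw [h2] at h1
    refine h1.trans ?_
    gcongr
  have h5 : 4 * (h * ((K1 * Y * x / P ^ 2) * (K2 * (2 * v) * Y / R ^ 2))) * (P ^ 2 * R ^ 2) =
      (x * Y ^ 2) * (8 * K1 * K2 * (v * h)) := by
    field_simp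
    ring
  have h6 : (c0 * x * Y) ^ 2 = (x * Y ^ 2) * (c0 ^ 2 * x) := by ring
  rw [h5, h6] at h4
  have h7 := le_of_mul_le_mul_left h4 (by positivity)
  rw [div_mul_eq_mul_div, div_le_iff₀ (by positivity)]
  linarith

theorem core (b : ℕ) : ∃ e2 : ℕ, ∀ a F : ℕ, ∃ e1 : ℕ, ∃ c : ℝ, 0 < c ∧ ∀ᶠ x : ℕ in atTop,
    ∃ (Y v : ℕ) (H : Finset ℕ), 1 ≤ v ∧ 2 * v ≤ Y ∧ 2 * Y ≤ x ∧
      (v : ℝ) ≤ 2 * Real.log ((Y + 1 : ℕ) : ℝ) ^ e2 ∧
      (Y : ℝ) ≤ 2 * Real.log ((x + 1 : ℕ) : ℝ) ^ e1 ∧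
      c * x ≤ v * H.card ∧
      ∀ β ∈ H, ∃ n' : ℕ, n' / v = β ∧ n' ≤ x ∧ ∃ R : Finset (ℕ × ℕ),
        Real.log ((x + 1 : ℕ) : ℝ) ^ F ≤ R.card ∧
        ∀ z ∈ R, PI a z.1 ∧ PI b z.2 ∧ z.2 ≤ Y ∧ Y < z.1 ∧ z.1 + z.2 = 2 * n' := by
  classical
  obtain ⟨Eb, hEb⟩ := TT_le b
  obtain ⟨cb, hcb, yb, hB⟩ := density3 b
  obtain ⟨e2, he2⟩ : ∃ e2, e2 = Eb + (2 * b + 2) := ⟨_, rfl⟩
  obtain ⟨Cb, hCb, xb, hTb⟩ := hEb (e2 + 1)
  refine ⟨e2, fun a F => ?_⟩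
  obtain ⟨Ea, hEa⟩ := TT_le a
  obtain ⟨ca, hca, ya, hA⟩ := density3 a
  obtain ⟨e1, he1⟩ : ∃ e1, e1 = Ea + (2 * a + 2) + (a + b + F + 3) := ⟨_, rfl⟩
  obtain ⟨Ca, hCa, xa, hTa⟩ := hEa (e1 + 1)
  obtain ⟨c0, hc0d⟩ : ∃ c0, c0 = ca / 2 * cb := ⟨_, rfl⟩
  have hc0 : 0 < c0 := by rw [hc0d]; positivity
  refine ⟨e1, c0 ^ 2 / (8 * (1 + 8 * Ca) * (1 + 4 * Cb)), by positivity, ?_⟩
  -- largeness of `Y`
  obtain ⟨Y0, hY0⟩ := eventually_atTop.mp ((ev_pow e2 8 1 (by norm_num) one_pos).and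
    (ev_log_ge 4))
  filter_upwards [eventually_ge_atTop (max xa ya), eventually_ge_atTop 2,
    ev_pow (e1 + (a + 1)) (2 * (4 / ca) * 2 ^ (e1 + (a + 1))) 1 (by positivity) one_pos,
    ev_pow e1 (4 * 2 ^ e1) 1 (by positivity) one_pos,
    ev_log_ge (max (max 4 (6 / c0)) (max (Y0 : ℝ) (max (yb : ℝ) (xb : ℝ))))]
    with x g1 g2 g3 g4 g5
  rw [Real.rpow_one] at g3 g4
  have hxa : xa ≤ x + 1 := ((le_max_left _ _).trans g1).trans (Nat.le_succ _)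
  have hya : ya ≤ x := (le_max_right _ _).trans g1
  have hx0 : (0 : ℝ) < x := by exact_mod_cast (by omega : 0 < x)
  have hx2 : (2 : ℝ) ≤ x := by exact_mod_cast g2
  obtain ⟨l, hl⟩ : ∃ l, l = Real.log ((x + 1 : ℕ) : ℝ) := ⟨_, rfl⟩
  rw [← hl]
  have hlx : Real.log (x : ℝ) ≤ l := by
    rw [hl]
    apply Real.log_le_log hx0
    push_cast
    linarith
  have hl2 : l ≤ 2 * Real.log (x : ℝ) := by
    have h1 : ((x + 1 : ℕ) : ℝ) ≤ (x : ℝ) ^ 2 := by push_cast; nlinarith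
    have h2 := Real.log_le_log (by positivity : (0 : ℝ) < ((x + 1 : ℕ) : ℝ)) h1
    rw [Real.log_pow] at h2
    rw [hl]
    exact_mod_cast h2
  have hl5 := g5.trans hlx
  have hl4 : 4 ≤ l := ((le_max_left _ _).trans (le_max_left _ _)).trans hl5
  have hlc : 6 / c0 ≤ l := ((le_max_right _ _).trans (le_max_left _ _)).trans hl5
  have hlY0 : (Y0 : ℝ) ≤ l := ((le_max_left _ _).trans (le_max_right _ _)).trans hl5
  have hlyb : (yb : ℝ) ≤ l :=
    (((le_max_left _ _).trans (le_max_right _ _)).trans (le_max_right _ _)).trans hl5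
  have hlxb : (xb : ℝ) ≤ l :=
    (((le_max_right _ _).trans (le_max_right _ _)).trans (le_max_right _ _)).trans hl5
  have hl0 : 0 < l := by linarith
  have hl1 : 1 ≤ l := by linarith
  -- the number `Y`
  obtain ⟨Y, hYd⟩ : ∃ Y : ℕ, Y = ⌈l ^ e1⌉₊ := ⟨_, rfl⟩
  have hle1 : 1 ≤ l ^ e1 := one_le_pow₀ hl1
  have hYge : l ^ e1 ≤ Y := by rw [hYd]; exact Nat.le_ceil _
  have hYle : (Y : ℝ) ≤ 2 * l ^ e1 := by
    have := (Nat.ceil_lt_add_one (by positivity : 0 ≤ l ^ e1)).le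
    rw [← hYd] at this
    linarith
  have hlY : l ≤ Y := by
    refine le_trans ?_ hYge
    calc l = l ^ 1 := (pow_one l).symm
      _ ≤ l ^ e1 := pow_le_pow_right₀ hl1 (by omega)
  have hY0r : (0 : ℝ) < Y := by linarith
  have hY1 : 1 ≤ Y := by
    have : (0 : ℝ) < (Y : ℝ) := hY0r
    exact_mod_cast this
  have hYY0 : Y0 ≤ Y := by exact_mod_cast hlY0.trans hlY
  have hYyb : yb ≤ Y := by exact_mod_cast hlyb.trans hlY
  have hYxb : xb ≤ Y := by exact_mod_cast hlxb.trans hlY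
  have hlpow : l ^ e1 ≤ 2 ^ e1 * Real.log (x : ℝ) ^ e1 := by
    rw [← mul_pow]
    gcongr
  have hYx : 2 * (Y : ℝ) ≤ x := by
    calc 2 * (Y : ℝ) ≤ 4 * l ^ e1 := by linarith
      _ ≤ 4 * (2 ^ e1 * Real.log (x : ℝ) ^ e1) := by gcongr
      _ = 4 * 2 ^ e1 * Real.log (x : ℝ) ^ e1 := by ring
      _ ≤ x := g4
  have hYxn : 2 * Y ≤ x := by exact_mod_cast hYx
  -- the number `v`
  obtain ⟨lam, hlam⟩ : ∃ lam, lam = Real.log ((Y + 1 : ℕ) : ℝ) := ⟨_, rfl⟩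
  obtain ⟨k1, k2⟩ := hY0 (Y + 1) (by omega)
  rw [← hlam] at k1 k2
  rw [Real.rpow_one] at k1
  have hlam0 : 0 < lam := by linarith
  have hlam1 : 1 ≤ lam := by linarith
  have hlaml : lam ≤ l := by
    rw [hlam, hl]
    apply Real.log_le_log (by positivity)
    exact_mod_cast (by omega : Y + 1 ≤ x + 1)
  obtain ⟨v, hvd⟩ : ∃ v : ℕ, v = ⌈lam ^ e2⌉₊ := ⟨_, rfl⟩
  have hle2 : 1 ≤ lam ^ e2 := one_le_pow₀ hlam1
  have hvge : lam ^ e2 ≤ v := by rw [hvd]; exact Nat.le_ceil _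
  have hvle : (v : ℝ) ≤ 2 * lam ^ e2 := by
    have := (Nat.ceil_lt_add_one (by positivity : 0 ≤ lam ^ e2)).le
    rw [← hvd] at this
    linarith
  have hv0r : (0 : ℝ) < v := by linarith
  have hv0 : 0 < v := by exact_mod_cast hv0r
  have hvY : 2 * (v : ℝ) ≤ Y := by
    push_cast at k1
    have h2 : (1 : ℝ) ≤ Y := by exact_mod_cast hY1
    linarith
  have hvYn : 2 * v ≤ Y := by exact_mod_cast hvY
  -- close pairs
  have hTA : ((TT a (x + 1) (2 * Y)).card : ℝ) ≤ Ca * (2 * Y) * (2 * x) / l ^ (2 * a + 2) := by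
    have h1 := hTa (x + 1) (2 * Y) hxa (by
      rw [← hl]
      push_cast
      calc l ^ Ea ≤ l ^ e1 := pow_le_pow_right₀ hl1 (by omega)
        _ ≤ Y := hYge
        _ ≤ 2 * Y := by linarith) (by
      rw [← hl]
      push_cast
      calc 2 * (Y : ℝ) ≤ 4 * l ^ e1 := by linarith
        _ ≤ l * l ^ e1 := by gcongr
        _ = l ^ (e1 + 1) := by ring)
    rw [← hl] at h1
    refine h1.trans ?_
    push_cast
    have h2 : (x : ℝ) + 1 ≤ 2 * x := by linarith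
    gcongr
  have hTB : ((TT b (Y + 1) (2 * v)).card : ℝ) ≤
      Cb * (2 * v) * (2 * Y) / lam ^ (2 * b + 2) := by
    have h1 := hTb (Y + 1) (2 * v) (by omega) (by
      rw [← hlam]
      push_cast
      calc lam ^ Eb ≤ lam ^ e2 := pow_le_pow_right₀ hlam1 (by omega)
        _ ≤ v := hvge
        _ ≤ 2 * v := by linarith) (by
      rw [← hlam]
      push_cast
      calc 2 * (v : ℝ) ≤ 4 * lam ^ e2 := by linarith
        _ ≤ lam * lam ^ e2 := by gcongr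
        _ = lam ^ (e2 + 1) := by ring)
    rw [← hlam] at h1
    refine h1.trans ?_
    push_cast
    have h2 : (Y : ℝ) + 1 ≤ 2 * Y := by
      have : (1 : ℝ) ≤ Y := by exact_mod_cast hY1
      linarith
    gcongr
  -- the sets
  obtain ⟨Q, hQ1, hQ2, hQ3⟩ := hB Y hYyb
  obtain ⟨S1, hS1, hS2, hS3⟩ := hA x hya
  obtain ⟨A, hAd⟩ : ∃ A, A = S1.filter (fun p => Y < p) := ⟨_, rfl⟩
  have hAmem : ∀ p ∈ A, Y < p ∧ p ≤ x ∧ PI a p := by
    intro p hp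
    rw [hAd, mem_filter] at hp
    exact ⟨hp.2, (mem_Icc.1 (hS1 hp.1)).2, hS2 p hp.1⟩
  have hQmem : ∀ q ∈ Q, 3 ≤ q ∧ q ≤ Y ∧ PI b q := fun q hq =>
    ⟨(mem_Icc.1 (hQ1 hq)).1, (mem_Icc.1 (hQ1 hq)).2, hQ2 q hq⟩
  have hAcard : ca / 2 * x ≤ A.card * l ^ (a + 1) := by
    have h1 : S1 ⊆ A ∪ Icc 1 Y := by
      intro q hq
      rw [mem_union, hAd, mem_filter, mem_Icc]
      have h2 := (mem_Icc.mp (hS1 hq)).1
      rcases Nat.lt_or_ge Y q with h | h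
      · exact Or.inl ⟨hq, h⟩
      · exact Or.inr ⟨by omega, h⟩
    have h2 : (S1.card : ℝ) ≤ A.card + Y := by
      have h3 := (Finset.card_le_card h1).trans (Finset.card_union_le _ _)
      rw [Nat.card_Icc, Nat.add_sub_cancel] at h3
      exact_mod_cast h3
    have hlx0 : 0 ≤ Real.log (x : ℝ) := Real.log_natCast_nonneg _
    have h4 : ca * (x : ℝ) ≤ (A.card + Y) * l ^ (a + 1) := by
      calc ca * (x : ℝ) ≤ S1.card * Real.log (x : ℝ) ^ (a + 1) := hS3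
        _ ≤ (A.card + Y) * l ^ (a + 1) := by gcongr
    have h5 : (Y : ℝ) * l ^ (a + 1) ≤ ca / 2 * x := by
      calc (Y : ℝ) * l ^ (a + 1) ≤ (2 * l ^ e1) * l ^ (a + 1) := by gcongr
        _ = 2 * l ^ (e1 + (a + 1)) := by ring
        _ ≤ 2 * (2 * Real.log (x : ℝ)) ^ (e1 + (a + 1)) := by gcongr
        _ = (2 * (4 / ca) * 2 ^ (e1 + (a + 1)) * Real.log (x : ℝ) ^ (e1 + (a + 1))) *
              (ca / 4) := by
            rw [mul_pow]
            field_simp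
        _ ≤ x * (ca / 4) := by gcongr
        _ ≤ ca / 2 * x := by nlinarith
    linarith
  obtain ⟨Z, hZ⟩ : ∃ Z, Z = A ×ˢ Q := ⟨_, rfl⟩
  have hZmem : ∀ z, z ∈ Z ↔ z.1 ∈ A ∧ z.2 ∈ Q := by
    intro z
    rw [hZ, mem_product]
  have hZc : (Z.card : ℝ) = A.card * Q.card := by rw [hZ, Finset.card_product]; push_cast; ring
  have hzz : c0 * x * Y ≤ Z.card * l ^ (a + 1) * lam ^ (b + 1) := by
    have hlY0' : 0 ≤ Real.log (Y : ℝ) := Real.log_natCast_nonneg _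
    have h1 : cb * Y ≤ Q.card * lam ^ (b + 1) := by
      refine hQ3.trans ?_
      have h2 : Real.log (Y : ℝ) ≤ lam := by
        rw [hlam]
        apply Real.log_le_log hY0r
        push_cast
        linarith
      gcongr
    calc c0 * x * Y = (ca / 2 * x) * (cb * Y) := by rw [hc0d]; ring
      _ ≤ (A.card * l ^ (a + 1)) * (Q.card * lam ^ (b + 1)) :=
          mul_le_mul hAcard h1 (by positivity) (by positivity)
      _ = _ := by rw [hZc]; ring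
  -- popular sums
  obtain ⟨M, hMd⟩ : ∃ M : ℕ, M = 2 * x := ⟨_, rfl⟩
  have hsum : ∀ z ∈ Z, z.1 + z.2 < M + 1 := by
    intro z hz
    have h1 := hAmem _ ((hZmem z).1 hz).1
    have h2 := hQmem _ ((hZmem z).1 hz).2
    omega
  have hpop := popular Z (M + 1) hsum (by omega)
  obtain ⟨Z', hZ'⟩ : ∃ Z', Z' = Z.filter (fun z => (Z.card : ℝ) / (2 * (M + 1 : ℕ)) ≤
      ((Z.filter (fun z' => z'.1 + z'.2 = z.1 + z.2)).card : ℝ)) := ⟨_, rfl⟩
  rw [← hZ'] at hpop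
  have hZ'Z : Z' ⊆ Z := by rw [hZ']; exact filter_subset _ _
  obtain ⟨H, hH⟩ : ∃ H, H = Z'.image (fun z => (z.1 + z.2) / (2 * v)) := ⟨_, rfl⟩
  have hen := energy Z' (fun z => (z.1 + z.2) / (2 * v))
  rw [← hH] at hen
  have hw0 : 0 < 2 * v := by omega
  have hE1 : (((Z' ×ˢ Z').filter (fun z : (ℕ × ℕ) × (ℕ × ℕ) =>
      (z.1.1 + z.1.2) / (2 * v) = (z.2.1 + z.2.2) / (2 * v))).card : ℝ) ≤
      (((A ×ˢ A).filter (fun z => z.1 ≤ z.2 + (Y + 2 * v) ∧ z.2 ≤ z.1 + (Y + 2 * v))).card : ℝ) *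
      (((Q ×ˢ Q).filter (fun z => z.1 ≤ z.2 + 2 * v ∧ z.2 ≤ z.1 + 2 * v)).card : ℝ) := by
    have h1 := en_le A Q (2 * v) Y hw0 (fun q hq => (hQmem q hq).2.1)
    rw [← hZ] at h1
    have h2 : ((Z' ×ˢ Z').filter (fun z : (ℕ × ℕ) × (ℕ × ℕ) =>
      (z.1.1 + z.1.2) / (2 * v) = (z.2.1 + z.2.2) / (2 * v))).card ≤
      ((Z ×ˢ Z).filter (fun z : (ℕ × ℕ) × (ℕ × ℕ) =>
      (z.1.1 + z.1.2) / (2 * v) = (z.2.1 + z.2.2) / (2 * v))).card := by
      apply Finset.card_le_card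
      apply Finset.filter_subset_filter
      exact Finset.product_subset_product hZ'Z hZ'Z
    exact_mod_cast h2.trans h1
  have hT1 : (((A ×ˢ A).filter
      (fun z => z.1 ≤ z.2 + (Y + 2 * v) ∧ z.2 ≤ z.1 + (Y + 2 * v))).card : ℝ) ≤
      (1 + 8 * Ca) * Y * x / (l ^ (a + 1)) ^ 2 := by
    have h1 := close_le a (x + 1) (2 * Y) A (fun p hp => ⟨by
      have := (hAmem p hp).2.1
      omega, (hAmem p hp).2.2⟩)
    have h2 : ((A ×ˢ A).filter
      (fun z => z.1 ≤ z.2 + (Y + 2 * v) ∧ z.2 ≤ z.1 + (Y + 2 * v))).card ≤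
      ((A ×ˢ A).filter (fun z => z.1 ≤ z.2 + 2 * Y ∧ z.2 ≤ z.1 + 2 * Y)).card := by
      apply Finset.card_le_card
      intro z hz
      rw [mem_filter] at hz ⊢
      exact ⟨hz.1, by omega, by omega⟩
    have h3 : (((A ×ˢ A).filter
      (fun z => z.1 ≤ z.2 + (Y + 2 * v) ∧ z.2 ≤ z.1 + (Y + 2 * v))).card : ℝ) ≤
      A.card + 2 * (TT a (x + 1) (2 * Y)).card := by exact_mod_cast h2.trans h1
    refine h3.trans ?_
    have h4 : (A.card : ℝ) ≤ x := by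
      have h5 : A ⊆ Icc 1 x := by
        intro p hp
        have := hAmem p hp
        rw [mem_Icc]
        omega
      have h6 := Finset.card_le_card h5
      rw [Nat.card_Icc, Nat.add_sub_cancel] at h6
      exact_mod_cast h6
    have h7 : (x : ℝ) ≤ Y * x / l ^ (2 * a + 2) := by
      rw [le_div_iff₀ (by positivity)]
      have h8 : l ^ (2 * a + 2) ≤ Y := by
        refine le_trans ?_ hYge
        exact pow_le_pow_right₀ hl1 (by omega)
      nlinarith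
    have e1 : (l ^ (a + 1)) ^ 2 = l ^ (2 * a + 2) := by rw [← pow_mul]; congr 1; ring
    rw [e1]
    have e2 : (1 + 8 * Ca) * Y * x / l ^ (2 * a + 2) = Y * x / l ^ (2 * a + 2) +
        2 * (Ca * (2 * Y) * (2 * x) / l ^ (2 * a + 2)) := by ring
    rw [e2]
    linarith
  have hT2 : (((Q ×ˢ Q).filter (fun z => z.1 ≤ z.2 + 2 * v ∧ z.2 ≤ z.1 + 2 * v)).card : ℝ) ≤
      (1 + 4 * Cb) * (2 * v) * Y / (lam ^ (b + 1)) ^ 2 := by
    have h1 := close_le b (Y + 1) (2 * v) Q (fun p hp => ⟨by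
      have := (hQmem p hp).2.1
      omega, (hQmem p hp).2.2⟩)
    have h3 : (((Q ×ˢ Q).filter (fun z => z.1 ≤ z.2 + 2 * v ∧ z.2 ≤ z.1 + 2 * v)).card : ℝ) ≤
      Q.card + 2 * (TT b (Y + 1) (2 * v)).card := by exact_mod_cast h1
    refine h3.trans ?_
    have h4 : (Q.card : ℝ) ≤ Y := by
      have h5 : Q ⊆ Icc 1 Y := by
        intro p hp
        have := hQmem p hp
        rw [mem_Icc]
        omega
      have h6 := Finset.card_le_card h5
      rw [Nat.card_Icc, Nat.add_sub_cancel] at h6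
      exact_mod_cast h6
    have h7 : (Y : ℝ) ≤ (2 * v) * Y / lam ^ (2 * b + 2) := by
      rw [le_div_iff₀ (by positivity)]
      have h8 : lam ^ (2 * b + 2) ≤ v := by
        refine le_trans ?_ hvge
        exact pow_le_pow_right₀ hlam1 (by omega)
      nlinarith
    have e1 : (lam ^ (b + 1)) ^ 2 = lam ^ (2 * b + 2) := by rw [← pow_mul]; congr 1; ring
    rw [e1]
    have e3 : (1 + 4 * Cb) * (2 * v) * Y / lam ^ (2 * b + 2) = (2 * v) * Y / lam ^ (2 * b + 2) +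
        2 * (Cb * (2 * v) * (2 * Y) / lam ^ (2 * b + 2)) := by ring
    rw [e3]
    linarith
  have hfin := finish (z := Z.card) (h := H.card) (x := x) (Y := Y) (v := v)
    (P := l ^ (a + 1)) (R := lam ^ (b + 1)) (c0 := c0) hx0 hY0r (by positivity) (by positivity)
    (by positivity : (0 : ℝ) < 1 + 8 * Ca) (by positivity : (0 : ℝ) < 1 + 4 * Cb) hc0
    (Nat.cast_nonneg _) (Nat.cast_nonneg _) hzz (le_trans (by gcongr) hen) hE1 hT1 hT2
  refine ⟨Y, v, H, hv0, hvYn, hYxn, by rw [← hlam]; exact hvle, hYle, hfin, ?_⟩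
  intro β hβ
  rw [hH, mem_image] at hβ
  obtain ⟨z, hz, hzβ⟩ := hβ
  have hz2 := hz
  rw [hZ', mem_filter] at hz2
  obtain ⟨hzZ, hzpop⟩ := hz2
  have hA1 := hAmem _ ((hZmem z).1 hzZ).1
  have hQ1' := hQmem _ ((hZmem z).1 hzZ).2
  have hp := PI_prime hA1.2.2
  have hq := PI_prime hQ1'.2.2
  have hp2 := hp.eq_two_or_odd
  have hq2 := hq.eq_two_or_odd
  refine ⟨(z.1 + z.2) / 2, ?_, by omega, Z.filter (fun z' => z'.1 + z'.2 = z.1 + z.2), ?_, ?_⟩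
  · rw [Nat.div_div_eq_div_mul]
    exact hzβ
  · refine le_trans ?_ hzpop
    have hM : ((M + 1 : ℕ) : ℝ) ≤ 3 * x := by
      rw [hMd]; push_cast; linarith
    have h1 : (Z.card : ℝ) / (2 * (3 * x)) ≤ Z.card / (2 * (M + 1 : ℕ)) := by
      gcongr
    refine le_trans ?_ h1
    rw [le_div_iff₀ (by positivity)]
    have hP0 : 0 < l ^ (a + 1) := by positivity
    have hR0 : 0 < lam ^ (b + 1) := by positivity
    have h2 : l ^ F * (2 * (3 * x)) * (l ^ (a + 1) * lam ^ (b + 1)) ≤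
        Z.card * (l ^ (a + 1) * lam ^ (b + 1)) := by
      calc l ^ F * (2 * (3 * x)) * (l ^ (a + 1) * lam ^ (b + 1))
          ≤ l ^ F * (2 * (3 * x)) * (l ^ (a + 1) * l ^ (b + 1)) := by gcongr
        _ = 6 * x * l ^ (F + (a + 1) + (b + 1)) := by ring
        _ ≤ (c0 * l) * x * l ^ (F + (a + 1) + (b + 1)) := by
            have : 6 ≤ c0 * l := by
              rw [div_le_iff₀ hc0] at hlc
              linarith
            gcongr
        _ = c0 * x * l ^ (a + b + F + 3) := by ring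
        _ ≤ c0 * x * l ^ e1 := by
            gcongr
            omega
        _ ≤ c0 * x * Y := by gcongr
        _ ≤ _ := by rw [← mul_assoc]; exact hzz
    exact le_of_mul_le_mul_right h2 (by positivity)
  · intro z' hz'
    rw [mem_filter] at hz'
    have hA2 := hAmem _ ((hZmem z').1 hz'.1).1
    have hQ2' := hQmem _ ((hZmem z').1 hz'.1).2
    refine ⟨hA2.2.2, hQ2'.2.2, hQ2'.2.1, hA2.1, ?_⟩
    rw [hz'.2]
    omega

end Pool.Agent.L0h76.WP
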