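import Pool.Agent.L0h76.WP.Core
import Pool.Agent.TH665.GP.F3

/-! Windows with representable numbers. -/

set_option autoImplicit false

open Finset Filter Topology

namespace Pool.Agent.L0h76.WP

open Pool.Agent.H197R2.PG (PI)
open Pool.Agent.TH665.GP (PI_prime ev_pow ev_log_ge ff exists_index)

/-- an index of an iterated prime -/
noncomputable def idx (a p : ℕ) : ℕ := by
  classical
  exact if h : PI a p then Classical.choose (exists_index h) else 0

lemma idx_pos {a p : ℕ} (h : PI a p) : 0 < idx a p := by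
  unfold idx
  rw [dif_pos h]
  exact (Classical.choose_spec (exists_index h)).1

lemma idx_ff {a p : ℕ} (h : PI a p) : ff^[a + 1] (idx a p) = p := by
  unfold idx
  rw [dif_pos h]
  exact (Classical.choose_spec (exists_index h)).2

/-- `2 n` has at least `r` representations with the `b`-prime at most `B` -/
def Rich (a b n : ℕ) (r B : ℝ) : Prop :=
  ∃ R : Finset (ℕ × ℕ), r ≤ R.card ∧ ∀ z ∈ R, 0 < z.1 ∧ 0 < z.2 ∧
    ff^[a + 1] z.1 ≠ ff^[b + 1] z.2 ∧ ff^[a + 1] z.1 + ff^[b + 1] z.2 = 2 * n ∧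
    (ff^[b + 1] z.2 : ℝ) ≤ B

lemma rich_of {a b n Y : ℕ} {r B : ℝ} (R : Finset (ℕ × ℕ)) (hr : r ≤ R.card) (hB : (Y : ℝ) ≤ B)
    (h : ∀ z ∈ R, PI a z.1 ∧ PI b z.2 ∧ z.2 ≤ Y ∧ Y < z.1 ∧ z.1 + z.2 = 2 * n) :
    Rich a b n r B := by
  classical
  refine ⟨R.image (fun z => (idx a z.1, idx b z.2)), ?_, ?_⟩
  · rw [Finset.card_image_of_injOn]
    · exact hr
    · intro z hz z' hz' hzz
      have h1 := h z hz
      have h2 := h z' hz'
      simp only [Prod.mk.injEq] at hzz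
      refine Prod.ext ?_ ?_
      · rw [← idx_ff h1.1, ← idx_ff h2.1, hzz.1]
      · rw [← idx_ff h1.2.1, ← idx_ff h2.2.1, hzz.2]
  · intro w hw
    obtain ⟨z, hz, rfl⟩ := mem_image.1 hw
    obtain ⟨g1, g2, g3, g4, g5⟩ := h z hz
    refine ⟨idx_pos g1, idx_pos g2, ?_, ?_, ?_⟩
    · rw [idx_ff g1, idx_ff g2]
      omega
    · rw [idx_ff g1, idx_ff g2]
      exact g5
    · rw [idx_ff g2]
      exact le_trans (by exact_mod_cast g3) hB

theorem main (b : ℕ) : ∃ E : ℕ, ∀ a F : ℕ, ∃ (G : ℕ) (c : ℝ), 0 < c ∧ ∀ᶠ x : ℕ in atTop,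
    ∃ T : Finset ℕ, T ⊆ Icc 1 x ∧ c * x ≤ T.card ∧ ∀ n ∈ T, ∃ n' : ℕ, n ≤ n' ∧
      (n' : ℝ) ≤ n + Real.log (Real.log n) ^ E ∧
      Rich a b n' (Real.log n ^ F) (Real.log n ^ G) := by
  classical
  obtain ⟨e2, hcore⟩ := core b
  refine ⟨e2 + 1, fun a F => ?_⟩
  obtain ⟨e1, c, hc, hx⟩ := hcore a F
  refine ⟨e1 + 1, c / 2, by positivity, ?_⟩
  have hll : Tendsto (fun x : ℕ => Real.log (Real.log (x : ℝ))) atTop atTop :=
    Real.tendsto_log_atTop.comp (Real.tendsto_log_atTop.comp tendsto_natCast_atTop_atTop)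
  have hsq : ∀ᶠ x : ℕ in atTop, ((Nat.sqrt x + 1 : ℕ) : ℝ) ≤ c / 4 * x := by
    obtain ⟨M, hM⟩ := exists_nat_ge (8 / c)
    filter_upwards [eventually_ge_atTop (max 1 (M ^ 2))] with x h1
    have h2 : M ^ 2 ≤ x := (le_max_right _ _).trans h1
    have h3 : 1 ≤ x := (le_max_left _ _).trans h1
    have h4 : M ≤ Nat.sqrt x := Nat.le_sqrt'.2 h2
    have h5 : Nat.sqrt x * Nat.sqrt x ≤ x := Nat.sqrt_le x
    have h6 : 1 ≤ Nat.sqrt x := Nat.le_sqrt'.2 (by simpa using h3)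
    have h5r : (Nat.sqrt x : ℝ) * Nat.sqrt x ≤ x := by exact_mod_cast h5
    have h6r : (1 : ℝ) ≤ Nat.sqrt x := by exact_mod_cast h6
    have h4r : 8 / c ≤ Nat.sqrt x := hM.trans (by exact_mod_cast h4)
    rw [div_le_iff₀ hc] at h4r
    push_cast
    have h7 : (0 : ℝ) < Nat.sqrt x := by linarith
    calc (Nat.sqrt x : ℝ) + 1 ≤ 2 * Nat.sqrt x := by linarith
      _ = 8 * (Nat.sqrt x / 4) := by ring
      _ ≤ (Nat.sqrt x * c) * (Nat.sqrt x / 4) := by gcongr
      _ = c / 4 * (Nat.sqrt x * Nat.sqrt x) := by ring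
      _ ≤ _ := by gcongr
  filter_upwards [hx, hsq, eventually_ge_atTop 2,
    ev_pow e2 (2 * 2 ^ e2 * (4 / c)) 1 (by positivity) one_pos,
    ev_log_ge (4 * 2 ^ 2 * (2 * 4 ^ e1 + 4)),
    hll.eventually_ge_atTop (2 * (4 * (2 * (e1 + 1)) ^ e2) + 4)] with x h1 h2 h3 h4 h5 h6
  obtain ⟨Y, v, H, hv1, hvY, hYx, hv, hY, hcard, hH⟩ := h1
  rw [Real.rpow_one] at h4
  have hx2 : (2 : ℝ) ≤ x := by exact_mod_cast h3
  have hx0 : (0 : ℝ) < x := by linarith
  obtain ⟨l, hl⟩ : ∃ l, l = Real.log ((x + 1 : ℕ) : ℝ) := ⟨_, rfl⟩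
  rw [← hl] at hY hH
  have hlx : Real.log (x : ℝ) ≤ l := by
    rw [hl]
    apply Real.log_le_log hx0
    push_cast
    linarith
  have hl2 : l ≤ 2 * Real.log (x : ℝ) := by
    have k1 : ((x + 1 : ℕ) : ℝ) ≤ (x : ℝ) ^ 2 := by push_cast; nlinarith
    have k2 := Real.log_le_log (by positivity : (0 : ℝ) < ((x + 1 : ℕ) : ℝ)) k1
    rw [Real.log_pow] at k2
    rw [hl]
    exact_mod_cast k2
  have h41 : (1 : ℝ) ≤ 4 ^ e1 := one_le_pow₀ (by norm_num)
  have hlog96 : 96 ≤ Real.log (x : ℝ) := by nlinarith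
  have hl96 : 96 ≤ l := hlog96.trans hlx
  have hl0 : 0 < l := by linarith
  have hl1 : 1 ≤ l := by linarith
  -- the size of `v`
  obtain ⟨lam, hlam⟩ : ∃ lam, lam = Real.log ((Y + 1 : ℕ) : ℝ) := ⟨_, rfl⟩
  rw [← hlam] at hv
  have hlam0 : 0 ≤ lam := by rw [hlam]; exact Real.log_natCast_nonneg _
  have hlaml : lam ≤ l := by
    rw [hlam, hl]
    apply Real.log_le_log (by positivity)
    exact_mod_cast (by omega : Y + 1 ≤ x + 1)
  have hvx : (v : ℝ) ≤ c / 4 * x := by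
    calc (v : ℝ) ≤ 2 * lam ^ e2 := hv
      _ ≤ 2 * l ^ e2 := by gcongr
      _ ≤ 2 * (2 * Real.log (x : ℝ)) ^ e2 := by gcongr
      _ = (2 * 2 ^ e2 * (4 / c) * Real.log (x : ℝ) ^ e2) * (c / 4) := by
          rw [mul_pow]
          field_simp
      _ ≤ x * (c / 4) := by gcongr
      _ = _ := by ring
  -- the set
  obtain ⟨H', hH'⟩ : ∃ H', H' = H.filter (fun β => 1 ≤ β) := ⟨_, rfl⟩
  have hHcard : H.card ≤ H'.card + 1 := by
    have k1 : H ⊆ insert 0 H' := by
      intro β hβ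
      rw [mem_insert, hH', mem_filter]
      rcases Nat.eq_zero_or_pos β with h0 | h0
      · exact Or.inl h0
      · exact Or.inr ⟨hβ, h0⟩
    exact (Finset.card_le_card k1).trans (Finset.card_insert_le _ _)
  obtain ⟨T0, hT0⟩ : ∃ T0, T0 = (H' ×ˢ range v).image (fun p => p.1 * v - p.2) := ⟨_, rfl⟩
  have hT0card : T0.card = H'.card * v := by
    rw [hT0, Finset.card_image_of_injOn, Finset.card_product, Finset.card_range]
    intro p hp q hq hpq
    rw [Finset.mem_coe, mem_product, hH', mem_filter, mem_range] at hp hq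
    simp only at hpq
    obtain ⟨⟨_, p1⟩, p2⟩ := hp
    obtain ⟨⟨_, q1⟩, q2⟩ := hq
    have k1 : v ≤ p.1 * v := Nat.le_mul_of_pos_left v p1
    have k2 : v ≤ q.1 * v := Nat.le_mul_of_pos_left v q1
    have k3 : p.1 = q.1 := by
      rcases lt_trichotomy p.1 q.1 with h | h | h
      · have k4 : (p.1 + 1) * v ≤ q.1 * v := Nat.mul_le_mul_right v h
        have k5 : (p.1 + 1) * v = p.1 * v + v := by ring
        omega
      · exact h
      · have k4 : (q.1 + 1) * v ≤ p.1 * v := Nat.mul_le_mul_right v h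
        have k5 : (q.1 + 1) * v = q.1 * v + v := by ring
        omega
    refine Prod.ext k3 ?_
    rw [k3] at hpq k1
    omega
  have hT0mem : ∀ n ∈ T0, 1 ≤ n ∧ n ≤ x ∧ ∃ n' : ℕ, n ≤ n' ∧ n' ≤ n + 2 * v ∧
      ∃ R : Finset (ℕ × ℕ), l ^ F ≤ R.card ∧
        ∀ z ∈ R, PI a z.1 ∧ PI b z.2 ∧ z.2 ≤ Y ∧ Y < z.1 ∧ z.1 + z.2 = 2 * n' := by
    intro n hn
    rw [hT0, mem_image] at hn
    obtain ⟨p, hp, hpn⟩ := hn
    rw [mem_product, hH', mem_filter, mem_range] at hp
    obtain ⟨⟨p0, p1⟩, p2⟩ := hp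
    obtain ⟨n', m1, m2, R, m3, m4⟩ := hH p.1 p0
    have k1 : v ≤ p.1 * v := Nat.le_mul_of_pos_left v p1
    have k2 := Nat.div_add_mod n' v
    have k3 := Nat.mod_lt n' (by omega : v > 0)
    rw [m1, mul_comm v p.1] at k2
    refine ⟨by omega, by omega, n', by omega, by omega, R, m3, m4⟩
  obtain ⟨T, hT⟩ : ∃ T, T = T0.filter (fun n => x ≤ n ^ 2) := ⟨_, rfl⟩
  refine ⟨T, ?_, ?_, ?_⟩
  · intro n hn
    rw [hT, mem_filter] at hn
    have := hT0mem n hn.1
    rw [mem_Icc]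
    exact ⟨this.1, this.2.1⟩
  · have k1 : T0 ⊆ T ∪ range (Nat.sqrt x + 1) := by
      intro n hn
      rw [mem_union, hT, mem_filter, mem_range]
      rcases Nat.lt_or_ge (n ^ 2) x with h | h
      · right
        have : n ≤ Nat.sqrt x := Nat.le_sqrt'.2 h.le
        omega
      · exact Or.inl ⟨hn, h⟩
    have k2 : (T0.card : ℝ) ≤ T.card + (Nat.sqrt x + 1 : ℕ) := by
      have k3 := (Finset.card_le_card k1).trans (Finset.card_union_le _ _)
      rw [Finset.card_range] at k3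
      exact_mod_cast k3
    have k4 : (v : ℝ) * H.card ≤ T0.card + v := by
      rw [hT0card]
      have k5 : v * H.card ≤ H'.card * v + v := by
        calc v * H.card ≤ v * (H'.card + 1) := Nat.mul_le_mul_left _ hHcard
          _ = _ := by ring
      exact_mod_cast k5
    linarith
  · intro n hn
    rw [hT, mem_filter] at hn
    obtain ⟨n1, n2, n', n3, n4, R, n5, n6⟩ := hT0mem n hn.1
    have hn0 : (0 : ℝ) < n := by exact_mod_cast n1
    have hnx : (n : ℝ) ≤ x := by exact_mod_cast n2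
    have hnsq : (x : ℝ) ≤ (n : ℝ) ^ 2 := by exact_mod_cast hn.2
    -- logarithms of `n`
    have hlogn : Real.log (x : ℝ) ≤ 2 * Real.log (n : ℝ) := by
      have := Real.log_le_log hx0 hnsq
      rw [Real.log_pow] at this
      exact_mod_cast this
    have hlogn4 : l ≤ 4 * Real.log (n : ℝ) := by linarith
    have hlognl : Real.log (n : ℝ) ≤ l := (Real.log_le_log hn0 hnx).trans hlx
    have hlogn0 : 0 < Real.log (n : ℝ) := by linarith
    have hlogl : Real.log (l / 4) ≤ Real.log (Real.log (n : ℝ)) :=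
      Real.log_le_log (by positivity) (by linarith)
    have hlog4 : Real.log 4 ≤ 2 := by
      have e : (4 : ℝ) = 2 ^ 2 := by norm_num
      rw [e, Real.log_pow]
      have := Real.log_two_lt_d9
      push_cast
      linarith
    rw [Real.log_div hl0.ne' (by norm_num)] at hlogl
    have hllx : 2 * (4 * (2 * ((e1 : ℝ) + 1)) ^ e2) + 4 ≤ Real.log l :=
      h6.trans (Real.log_le_log (by linarith) hlx)
    have hK0 : 0 ≤ 4 * (2 * ((e1 : ℝ) + 1)) ^ e2 := by positivity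
    have hll2 : Real.log l ≤ 2 * Real.log (Real.log (n : ℝ)) := by linarith
    have hll4 : 4 * (2 * ((e1 : ℝ) + 1)) ^ e2 ≤ Real.log (Real.log (n : ℝ)) := by linarith
    refine ⟨n', n3, ?_, rich_of R ?_ ?_ n6⟩
    · -- the window
      have k1 : lam ≤ (e1 + 1) * Real.log l := by
        have k2 : ((Y + 1 : ℕ) : ℝ) ≤ 3 * l ^ e1 := by
          push_cast
          have : 1 ≤ l ^ e1 := one_le_pow₀ hl1
          linarith
        rw [hlam]
        refine (Real.log_le_log (by positivity) k2).trans ?_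
        rw [Real.log_mul (by norm_num) (by positivity), Real.log_pow]
        have k3 : Real.log 3 ≤ Real.log l := Real.log_le_log (by norm_num) (by linarith)
        linarith
      have k2 : lam ≤ 2 * ((e1 : ℝ) + 1) * Real.log (Real.log (n : ℝ)) := by
        have he : (0 : ℝ) ≤ (e1 : ℝ) + 1 := by positivity
        calc lam ≤ (e1 + 1) * Real.log l := k1
          _ ≤ (e1 + 1) * (2 * Real.log (Real.log (n : ℝ))) := by gcongr
          _ = _ := by ring
      have hlln0 : 0 ≤ Real.log (Real.log (n : ℝ)) := hK0.trans hll4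
      have k3 : 2 * (v : ℝ) ≤ Real.log (Real.log (n : ℝ)) ^ (e2 + 1) := by
        calc 2 * (v : ℝ) ≤ 4 * lam ^ e2 := by linarith
          _ ≤ 4 * (2 * ((e1 : ℝ) + 1) * Real.log (Real.log (n : ℝ))) ^ e2 := by gcongr
          _ = (4 * (2 * ((e1 : ℝ) + 1)) ^ e2) * Real.log (Real.log (n : ℝ)) ^ e2 := by
              rw [mul_pow]; ring
          _ ≤ Real.log (Real.log (n : ℝ)) * Real.log (Real.log (n : ℝ)) ^ e2 := by gcongr
          _ = _ := by ring
      have k4 : (n' : ℝ) ≤ n + 2 * v := by exact_mod_cast n4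
      linarith
    · refine le_trans ?_ n5
      gcongr
    · calc (Y : ℝ) ≤ 2 * l ^ e1 := hY
        _ ≤ 2 * (4 * Real.log (n : ℝ)) ^ e1 := by gcongr
        _ = (2 * 4 ^ e1) * Real.log (n : ℝ) ^ e1 := by rw [mul_pow]; ring
        _ ≤ Real.log (n : ℝ) * Real.log (n : ℝ) ^ e1 := by
            gcongr
            linarith
        _ = _ := by ring

end Pool.Agent.L0h76.WP
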